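import Pool.Agent.Q197.PS.SQ

/-!
# Hooley's conjecture on the variance of primes in progressions is decided by few residue classes

`G(X,Q)` is a sum over the `φ(Q)` reduced residue classes modulo `Q`. A sample is a set `S` of reduced residue
classes; its estimate of the variance is `φ(Q) / #S` times the sum over the classes in `S`. For `m ≥ (X / Q) log² X`
(which is at most `X ^ (1/2 - ε) log² X`, and only `log² X` for `Q` near `X`) the conjecture
`G(X,Q) ∼ X log Q`, uniformly for `X ^ (1/2 + ε) < Q < X`, holds if and only if the estimate is right for a fixed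
positive share `c` of the samples of `m` classes, and then it is right for almost all of them.
-/

set_option autoImplicit false

open Finset

namespace Pool.Agent.Results.MP_5d318d_nt.FewClassesSuffice

/-- `ψ(X; Q, A) = ∑_{n ≤ X, n ≡ A mod Q} Λ(n)` for `0 ≤ A < Q` -/
noncomputable def psiAP (X : ℝ) (Q A : ℕ) : ℝ :=
  ∑ n ∈ (Icc 1 ⌊X⌋₊).filter (fun n => n % Q = A), ArithmeticFunction.vonMangoldt n

/-- the reduced residue classes modulo `Q` -/
def reduced (Q : ℕ) : Finset ℕ := (range Q).filter (fun A => Nat.Coprime A Q)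

/-- the term `(ψ(X; Q, A) - X / φ(Q))²` of the variance -/
noncomputable def dev (X : ℝ) (Q A : ℕ) : ℝ := (psiAP X Q A - X / (Nat.totient Q : ℝ)) ^ 2

/-- the variance `G(X, Q)` -/
noncomputable def G (X : ℝ) (Q : ℕ) : ℝ := ∑ A ∈ reduced Q, dev X Q A

/-- the estimate of the variance from the sample `S` -/
noncomputable def est (X : ℝ) (Q : ℕ) (S : Finset ℕ) : ℝ :=
  (Nat.totient Q : ℝ) / S.card * ∑ A ∈ S, dev X Q A

/-- the samples of `m` reduced classes whose estimate differs from `X log Q` by at most `δ X log Q` -/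
noncomputable def good (δ X : ℝ) (Q m : ℕ) : Finset (Finset ℕ) := by
  classical
  exact ((reduced Q).powersetCard m).filter (fun S =>
    |est X Q S - X * Real.log Q| ≤ δ * (X * Real.log Q))

/-- the other samples of `m` reduced classes -/
noncomputable def bad (δ X : ℝ) (Q m : ℕ) : Finset (Finset ℕ) := by
  classical
  exact ((reduced Q).powersetCard m).filter (fun S =>
    ¬ |est X Q S - X * Real.log Q| ≤ δ * (X * Real.log Q))

lemma red_card (Q : ℕ) : (reduced Q).card = Nat.totient Q := by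
  unfold reduced
  rw [Nat.totient_eq_card_coprime]
  congr 1
  ext a
  simp only [mem_filter, mem_range, Nat.coprime_comm]

lemma good_add_bad (δ X : ℝ) (Q m : ℕ) : (good δ X Q m).card + (bad δ X Q m).card = (Nat.totient Q).choose m := by
  classical
  unfold good bad
  rw [← red_card, ← card_powersetCard]
  exact card_filter_add_card_filter_not _

/-- most samples estimate the variance -/
lemma core (X : ℝ) (hX : Real.exp 2 ≤ X) (Q m : ℕ) (hlog : Real.log X ≤ 2 * Real.log Q) (hQX : (Q : ℝ) < X)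
    (hm : X / Q * Real.log X ^ 2 ≤ m) (hmφ : m ≤ Nat.totient Q) (δ : ℝ) (hδ : 0 < δ) :
    ((((reduced Q).powersetCard m).filter (fun S =>
      δ * (G X Q + X * Real.log Q) ≤ |est X Q S - G X Q|)).card : ℝ) ≤
      9 / 2 / (δ ^ 2 * Real.log X) * ((Nat.totient Q).choose m : ℝ) := by
  have hX0 : 0 < X := (Real.exp_pos 2).trans_le hX
  have hl : 2 ≤ Real.log X := by
    rw [Real.le_log_iff_exp_le hX0]
    exact hX
  have hQl : 0 < Real.log Q := by linarith
  have hQ : 0 < Q := by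
    rcases Nat.eq_zero_or_pos Q with h | h
    · rw [h] at hQl
      simp at hQl
    · exact h
  have hQ0 : (0 : ℝ) < Q := by exact_mod_cast hQ
  have hmr : (0 : ℝ) < m := lt_of_lt_of_le (by positivity) hm
  have hm0 : 0 < m := by exact_mod_cast hmr
  have hL : 0 < X * Real.log Q := by positivity
  have hG : 0 ≤ G X Q := sum_nonneg fun _ _ => sq_nonneg _
  set L := X * Real.log Q with hLd
  have hs : 0 < δ * (G X Q + L) := by positivity
  have h1 := Q197.PS.samples (reduced Q) (dev X Q) m (M := (3 * (X / Q) * Real.log X) ^ 2)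
    (fun a _ => ⟨sq_nonneg _, Q197.PS.term_le X hX Q a hQ hQX⟩) hm0 (by rw [red_card]; exact hmφ) hs
  rw [red_card] at h1
  have e1 : ((reduced Q).powersetCard m).filter (fun S => δ * (G X Q + L) ≤ |est X Q S - G X Q|) =
      ((reduced Q).powersetCard m).filter (fun S => δ * (G X Q + L) ≤
        |(Nat.totient Q : ℝ) / m * ∑ a ∈ S, dev X Q a - ∑ a ∈ reduced Q, dev X Q a|) := by
    ext S
    rw [mem_filter, mem_filter, mem_powersetCard]
    refine and_congr_right fun hS => ?_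
    unfold est G
    rw [hS.2]
  rw [e1]
  refine h1.trans (mul_le_mul_of_nonneg_right ?_ (Nat.cast_nonneg _))
  have hGs : ∑ a ∈ reduced Q, dev X Q a = G X Q := rfl
  rw [hGs]
  have h2 : G X Q / (δ * (G X Q + L)) ^ 2 ≤ 1 / (4 * δ ^ 2 * L) := by
    rw [div_le_div_iff₀ (by positivity) (by positivity)]
    have := mul_nonneg (sq_nonneg δ) (sq_nonneg (G X Q - L))
    nlinarith
  have hφQ : (Nat.totient Q : ℝ) ≤ Q := by exact_mod_cast Nat.totient_le Q
  have h3 : (Nat.totient Q : ℝ) / m * (3 * (X / Q) * Real.log X) ^ 2 ≤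
      Q / m * (3 * (X / Q) * Real.log X) ^ 2 := by gcongr
  calc (Nat.totient Q : ℝ) / m * (3 * (X / Q) * Real.log X) ^ 2 * G X Q / (δ * (G X Q + L)) ^ 2
      = (Nat.totient Q : ℝ) / m * (3 * (X / Q) * Real.log X) ^ 2 * (G X Q / (δ * (G X Q + L)) ^ 2) := by ring
    _ ≤ Q / m * (3 * (X / Q) * Real.log X) ^ 2 * (1 / (4 * δ ^ 2 * L)) := by gcongr
    _ = 9 / (4 * δ ^ 2) * (X / Q * Real.log X ^ 2 / m) / Real.log Q := by
        rw [hLd]
        field_simp
        ring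
    _ ≤ 9 / (4 * δ ^ 2) * 1 / (Real.log X / 2) := by
        gcongr
        · rw [div_le_one hmr]
          exact hm
        · linarith
    _ = 9 / 2 / (δ ^ 2 * Real.log X) := by
        field_simp
        norm_num

/-- the range of the conjecture, for large `X` -/
lemma rng (ε : ℝ) (hε : 0 < ε) : ∃ X₁ : ℝ, Real.exp 2 ≤ X₁ ∧ ∀ X : ℝ, X₁ ≤ X → ∀ Q : ℕ,
    X ^ ((1 : ℝ) / 2 + ε) < (Q : ℝ) → (Q : ℝ) < X →
    Real.log X ≤ 2 * Real.log Q ∧ X / Q * Real.log X ^ 2 ≤ Nat.totient Q := by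
  have h1 := (isLittleO_log_rpow_atTop (half_pos hε)).bound (show (0 : ℝ) < 1 by norm_num)
  have h2 := (tendsto_rpow_atTop (half_pos hε)).eventually_ge_atTop 3
  obtain ⟨X₁, hX₁⟩ := Filter.eventually_atTop.1 (h1.and h2)
  refine ⟨max X₁ (Real.exp 2), le_max_right _ _, fun X hX Q hQ hQX => ?_⟩
  obtain ⟨h3, h4⟩ := hX₁ X ((le_max_left _ _).trans hX)
  have hXe : Real.exp 2 ≤ X := (le_max_right _ _).trans hX
  have hX0 : 0 < X := (Real.exp_pos 2).trans_le hXe
  have hl : 2 ≤ Real.log X := by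
    rw [Real.le_log_iff_exp_le hX0]
    exact hXe
  rw [one_mul, Real.norm_of_nonneg (by linarith), Real.norm_of_nonneg (by positivity)] at h3
  have hQ0 : (0 : ℝ) < Q := lt_trans (by positivity) hQ
  have hQn : 0 < Q := by exact_mod_cast hQ0
  have h5 : (1 / 2 + ε) * Real.log X ≤ Real.log Q := by
    rw [← Real.log_rpow hX0]
    exact Real.log_le_log (by positivity) hQ.le
  refine ⟨by nlinarith, ?_⟩
  have h6 := Q197.PS.mean_le X hXe Q hQn hQX
  have hφ : (0 : ℝ) < Nat.totient Q := by exact_mod_cast Nat.totient_pos.2 hQn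
  rw [div_le_iff₀ hφ] at h6
  have h7 : (Q : ℝ) ≤ 3 * Real.log X * Nat.totient Q := by
    have : X * 1 ≤ X * (3 * Real.log X * Nat.totient Q / Q) := by
      calc X * 1 = X := mul_one X
        _ ≤ 3 * (X / Q) * Real.log X * Nat.totient Q := h6
        _ = _ := by ring
    have h8 := le_of_mul_le_mul_left this hX0
    rwa [le_div_iff₀ hQ0, one_mul] at h8
  have h9 : 3 * Real.log X ^ 3 ≤ X ^ (2 * ε) := by
    calc 3 * Real.log X ^ 3 ≤ X ^ (ε / 2) * (X ^ (ε / 2)) ^ 3 := by gcongr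
      _ = X ^ (2 * ε) := by
          rw [← Real.rpow_natCast, ← Real.rpow_mul hX0.le, ← Real.rpow_add hX0]
          congr 1
          push_cast
          ring
  have h10 : X * (3 * Real.log X ^ 3) ≤ (Q : ℝ) ^ 2 := by
    calc X * (3 * Real.log X ^ 3) ≤ X * X ^ (2 * ε) := by gcongr
      _ = (X ^ ((1 : ℝ) / 2 + ε)) ^ 2 := by
          rw [← Real.rpow_natCast, ← Real.rpow_mul hX0.le, ← Real.rpow_one_add' hX0.le (by positivity)]
          congr 1
          push_cast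
          ring
      _ ≤ (Q : ℝ) ^ 2 := by gcongr
  have h11 : X / Q * Real.log X ^ 2 * (3 * Real.log X) ≤ Nat.totient Q * (3 * Real.log X) := by
    calc X / Q * Real.log X ^ 2 * (3 * Real.log X) = X * (3 * Real.log X ^ 3) / Q := by ring
      _ ≤ (Q : ℝ) ^ 2 / Q := by gcongr
      _ = Q := by field_simp
      _ ≤ _ := by linarith
  exact le_of_mul_le_mul_right h11 (by positivity)

/-- **Few residue classes decide.** Let `ε > 0` and `0 < c < 1`. The following are equivalent: (1) Hooley's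
conjecture for `ε`; (2) for every `δ > 0`, all large `X` and all `Q` in the range there is ONE number
`m ≥ (X / Q) log² X` such that at least the share `c` of the samples of `m` reduced classes modulo `Q` estimate the
variance up to `δ X log Q`; (3) for every `δ > 0`, all large `X`, all `Q` in the range and ALL `m` with
`(X / Q) log² X ≤ m ≤ φ(Q)` (there are such `m`), at most the share `δ` of the samples does not. -/
theorem result (ε : ℝ) (hε : 0 < ε) (c : ℝ) (hc : 0 < c) (hc1 : c < 1) :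
    ((∀ δ : ℝ, 0 < δ → ∃ X₀ : ℝ, ∀ X : ℝ, X₀ ≤ X → ∀ Q : ℕ,
        X ^ ((1 : ℝ) / 2 + ε) < (Q : ℝ) → (Q : ℝ) < X →
        |G X Q - X * Real.log Q| ≤ δ * (X * Real.log Q)) ↔
      (∀ δ : ℝ, 0 < δ → ∃ X₀ : ℝ, ∀ X : ℝ, X₀ ≤ X → ∀ Q : ℕ,
        X ^ ((1 : ℝ) / 2 + ε) < (Q : ℝ) → (Q : ℝ) < X →
        ∃ m : ℕ, X / Q * Real.log X ^ 2 ≤ m ∧ m ≤ Nat.totient Q ∧
          c * ((Nat.totient Q).choose m : ℝ) ≤ (good δ X Q m).card)) ∧
    ((∀ δ : ℝ, 0 < δ → ∃ X₀ : ℝ, ∀ X : ℝ, X₀ ≤ X → ∀ Q : ℕ,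
        X ^ ((1 : ℝ) / 2 + ε) < (Q : ℝ) → (Q : ℝ) < X →
        |G X Q - X * Real.log Q| ≤ δ * (X * Real.log Q)) ↔
      (∀ δ : ℝ, 0 < δ → ∃ X₀ : ℝ, ∀ X : ℝ, X₀ ≤ X → ∀ Q : ℕ,
        X ^ ((1 : ℝ) / 2 + ε) < (Q : ℝ) → (Q : ℝ) < X →
        X / Q * Real.log X ^ 2 ≤ Nat.totient Q ∧
        ∀ m : ℕ, X / Q * Real.log X ^ 2 ≤ m → m ≤ Nat.totient Q →
          ((bad δ X Q m).card : ℝ) ≤ δ * ((Nat.totient Q).choose m : ℝ))) := by
  classical
  obtain ⟨X₁, hX₁e, hX₁⟩ := rng ε hε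
  have hbig : ∀ η : ℝ, 0 < η → ∀ δ : ℝ, 0 < δ → ∃ X₂ : ℝ, ∀ X : ℝ, X₂ ≤ X → 9 / 2 / (δ ^ 2 * Real.log X) < η := by
    intro η hη δ hδ
    obtain ⟨X₂, h⟩ := Filter.eventually_atTop.1
      (Real.tendsto_log_atTop.eventually_gt_atTop (9 / 2 / (δ ^ 2 * η)))
    refine ⟨max X₂ 3, fun X hX => ?_⟩
    have h1 := h X ((le_max_left _ _).trans hX)
    have h2 : 0 < Real.log X := lt_trans (by positivity) h1
    rw [div_lt_iff₀ (by positivity)] at h1 ⊢
    linarith
  -- (1) implies (3)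
  have h13 : (∀ δ : ℝ, 0 < δ → ∃ X₀ : ℝ, ∀ X : ℝ, X₀ ≤ X → ∀ Q : ℕ,
        X ^ ((1 : ℝ) / 2 + ε) < (Q : ℝ) → (Q : ℝ) < X →
        |G X Q - X * Real.log Q| ≤ δ * (X * Real.log Q)) →
      (∀ δ : ℝ, 0 < δ → ∃ X₀ : ℝ, ∀ X : ℝ, X₀ ≤ X → ∀ Q : ℕ,
        X ^ ((1 : ℝ) / 2 + ε) < (Q : ℝ) → (Q : ℝ) < X →
        X / Q * Real.log X ^ 2 ≤ Nat.totient Q ∧
        ∀ m : ℕ, X / Q * Real.log X ^ 2 ≤ m → m ≤ Nat.totient Q →
          ((bad δ X Q m).card : ℝ) ≤ δ * ((Nat.totient Q).choose m : ℝ)) := by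
    intro h1 δ hδ
    obtain ⟨δ1, hδ1⟩ : ∃ δ1 : ℝ, δ1 = min δ 1 / 8 := ⟨_, rfl⟩
    have hδ0 : 0 < δ1 := by
      rw [hδ1]
      have := lt_min hδ one_pos
      linarith
    have hδ8 : 8 * δ1 ≤ δ := by
      rw [hδ1]
      linarith [min_le_left δ 1]
    have hδ81 : 8 * δ1 ≤ 1 := by
      rw [hδ1]
      linarith [min_le_right δ 1]
    obtain ⟨X₀, hX₀⟩ := h1 δ1 hδ0
    obtain ⟨X₂, hX₂⟩ := hbig δ hδ δ1 hδ0
    refine ⟨max X₀ (max X₁ X₂), fun X hX Q hQ hQX => ?_⟩
    have g0 : X₀ ≤ X := (le_max_left _ _).trans hX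
    have g1 : X₁ ≤ X := ((le_max_left _ _).trans (le_max_right _ _)).trans hX
    have g2 : X₂ ≤ X := ((le_max_right _ _).trans (le_max_right _ _)).trans hX
    obtain ⟨r1, r2⟩ := hX₁ X g1 Q hQ hQX
    refine ⟨r2, fun m hm hmφ => ?_⟩
    have hXe : Real.exp 2 ≤ X := hX₁e.trans g1
    have hX0 : 0 < X := (Real.exp_pos 2).trans_le hXe
    have hl : 2 ≤ Real.log X := by
      rw [Real.le_log_iff_exp_le hX0]
      exact hXe
    have hL : 0 < X * Real.log Q := by
      have : 0 < Real.log Q := by linarith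
      positivity
    have hc0 := core X hXe Q m r1 hQX hm hmφ δ1 hδ0
    have hG := hX₀ X g0 Q hQ hQX
    have hsub : bad δ X Q m ⊆ ((reduced Q).powersetCard m).filter (fun S =>
        δ1 * (G X Q + X * Real.log Q) ≤ |est X Q S - G X Q|) := by
      intro S hS
      unfold bad at hS
      rw [mem_filter] at hS ⊢
      refine ⟨hS.1, ?_⟩
      have hS2 := not_le.1 hS.2
      have h4 : |est X Q S - X * Real.log Q| ≤ |est X Q S - G X Q| + |G X Q - X * Real.log Q| := abs_sub_le _ _ _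
      have h5 : G X Q ≤ X * Real.log Q + δ1 * (X * Real.log Q) := by
        have := (abs_le.1 hG).2
        linarith
      have h6 : δ1 * (G X Q + X * Real.log Q) ≤ δ1 * (3 * (X * Real.log Q)) := by
        refine mul_le_mul_of_nonneg_left ?_ hδ0.le
        nlinarith
      have h7 : 8 * δ1 * (X * Real.log Q) ≤ δ * (X * Real.log Q) := by gcongr
      nlinarith
    have h3 : ((bad δ X Q m).card : ℝ) ≤ ((((reduced Q).powersetCard m).filter (fun S =>
        δ1 * (G X Q + X * Real.log Q) ≤ |est X Q S - G X Q|)).card : ℝ) := by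
      exact_mod_cast card_le_card hsub
    refine h3.trans (hc0.trans ?_)
    exact mul_le_mul_of_nonneg_right (hX₂ X g2).le (Nat.cast_nonneg _)
  -- (3) implies (2)
  have h32 : (∀ δ : ℝ, 0 < δ → ∃ X₀ : ℝ, ∀ X : ℝ, X₀ ≤ X → ∀ Q : ℕ,
        X ^ ((1 : ℝ) / 2 + ε) < (Q : ℝ) → (Q : ℝ) < X →
        X / Q * Real.log X ^ 2 ≤ Nat.totient Q ∧
        ∀ m : ℕ, X / Q * Real.log X ^ 2 ≤ m → m ≤ Nat.totient Q →
          ((bad δ X Q m).card : ℝ) ≤ δ * ((Nat.totient Q).choose m : ℝ)) →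
      (∀ δ : ℝ, 0 < δ → ∃ X₀ : ℝ, ∀ X : ℝ, X₀ ≤ X → ∀ Q : ℕ,
        X ^ ((1 : ℝ) / 2 + ε) < (Q : ℝ) → (Q : ℝ) < X →
        ∃ m : ℕ, X / Q * Real.log X ^ 2 ≤ m ∧ m ≤ Nat.totient Q ∧
          c * ((Nat.totient Q).choose m : ℝ) ≤ (good δ X Q m).card) := by
    intro h3 δ hδ
    obtain ⟨X₀, hX₀⟩ := h3 (min δ (1 - c)) (lt_min hδ (by linarith))
    refine ⟨max X₀ X₁, fun X hX Q hQ hQX => ?_⟩
    obtain ⟨r1, r2⟩ := hX₀ X ((le_max_left _ _).trans hX) Q hQ hQX
    refine ⟨Nat.totient Q, r1, le_refl _, ?_⟩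
    have h4 := r2 (Nat.totient Q) r1 (le_refl _)
    have h5 := good_add_bad (min δ (1 - c)) X Q (Nat.totient Q)
    have h6 : ((good (min δ (1 - c)) X Q (Nat.totient Q)).card : ℝ) +
        (bad (min δ (1 - c)) X Q (Nat.totient Q)).card = ((Nat.totient Q).choose (Nat.totient Q) : ℝ) := by
      exact_mod_cast h5
    have h7 : min δ (1 - c) * ((Nat.totient Q).choose (Nat.totient Q) : ℝ) ≤
        (1 - c) * ((Nat.totient Q).choose (Nat.totient Q) : ℝ) :=
      mul_le_mul_of_nonneg_right (min_le_right _ _) (Nat.cast_nonneg _)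
    obtain ⟨r3, _⟩ := hX₁ X ((le_max_right _ _).trans hX) Q hQ hQX
    have hXe : Real.exp 2 ≤ X := hX₁e.trans ((le_max_right _ _).trans hX)
    have hX0 : 0 < X := (Real.exp_pos 2).trans_le hXe
    have hl : 2 ≤ Real.log X := by
      rw [Real.le_log_iff_exp_le hX0]
      exact hXe
    have hL : 0 ≤ X * Real.log Q := by
      have : 0 < Real.log Q := by linarith
      positivity
    have hsub : good (min δ (1 - c)) X Q (Nat.totient Q) ⊆ good δ X Q (Nat.totient Q) := by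
      intro S hS
      unfold good at hS ⊢
      rw [mem_filter] at hS ⊢
      exact ⟨hS.1, hS.2.trans (mul_le_mul_of_nonneg_right (min_le_left _ _) hL)⟩
    have h8 : ((good (min δ (1 - c)) X Q (Nat.totient Q)).card : ℝ) ≤ (good δ X Q (Nat.totient Q)).card := by
      exact_mod_cast card_le_card hsub
    linarith
  -- (2) implies (1)
  have h21 : (∀ δ : ℝ, 0 < δ → ∃ X₀ : ℝ, ∀ X : ℝ, X₀ ≤ X → ∀ Q : ℕ,
        X ^ ((1 : ℝ) / 2 + ε) < (Q : ℝ) → (Q : ℝ) < X →
        ∃ m : ℕ, X / Q * Real.log X ^ 2 ≤ m ∧ m ≤ Nat.totient Q ∧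
          c * ((Nat.totient Q).choose m : ℝ) ≤ (good δ X Q m).card) →
      (∀ δ : ℝ, 0 < δ → ∃ X₀ : ℝ, ∀ X : ℝ, X₀ ≤ X → ∀ Q : ℕ,
        X ^ ((1 : ℝ) / 2 + ε) < (Q : ℝ) → (Q : ℝ) < X →
        |G X Q - X * Real.log Q| ≤ δ * (X * Real.log Q)) := by
    intro h2 δ hδ
    obtain ⟨δ1, hδ1⟩ : ∃ δ1 : ℝ, δ1 = min δ 1 / 8 := ⟨_, rfl⟩
    have hδ0 : 0 < δ1 := by
      rw [hδ1]
      have := lt_min hδ one_pos
      linarith
    have hδ8 : 8 * δ1 ≤ δ := by
      rw [hδ1]
      linarith [min_le_left δ 1]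
    have hδ81 : 8 * δ1 ≤ 1 := by
      rw [hδ1]
      linarith [min_le_right δ 1]
    obtain ⟨X₀, hX₀⟩ := h2 δ1 hδ0
    obtain ⟨X₂, hX₂⟩ := hbig c hc δ1 hδ0
    refine ⟨max X₀ (max X₁ X₂), fun X hX Q hQ hQX => ?_⟩
    have g0 : X₀ ≤ X := (le_max_left _ _).trans hX
    have g1 : X₁ ≤ X := ((le_max_left _ _).trans (le_max_right _ _)).trans hX
    have g2 : X₂ ≤ X := ((le_max_right _ _).trans (le_max_right _ _)).trans hX
    obtain ⟨r1, r2⟩ := hX₁ X g1 Q hQ hQX
    obtain ⟨m, hm, hmφ, hgood⟩ := hX₀ X g0 Q hQ hQX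
    have hXe : Real.exp 2 ≤ X := hX₁e.trans g1
    have hX0 : 0 < X := (Real.exp_pos 2).trans_le hXe
    have hl : 2 ≤ Real.log X := by
      rw [Real.le_log_iff_exp_le hX0]
      exact hXe
    have hL : 0 < X * Real.log Q := by
      have : 0 < Real.log Q := by linarith
      positivity
    have hc0 := core X hXe Q m r1 hQX hm hmφ δ1 hδ0
    have hch : (0 : ℝ) < ((Nat.totient Q).choose m : ℝ) := by exact_mod_cast Nat.choose_pos hmφ
    have h3 : ((((reduced Q).powersetCard m).filter (fun S =>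
        δ1 * (G X Q + X * Real.log Q) ≤ |est X Q S - G X Q|)).card : ℝ) < ((good δ1 X Q m).card : ℝ) := by
      refine lt_of_le_of_lt hc0 (lt_of_lt_of_le ?_ hgood)
      exact mul_lt_mul_of_pos_right (hX₂ X g2) hch
    have h4 : (((reduced Q).powersetCard m).filter (fun S =>
        δ1 * (G X Q + X * Real.log Q) ≤ |est X Q S - G X Q|)).card < (good δ1 X Q m).card := by
      exact_mod_cast h3
    obtain ⟨S, hS1, hS2⟩ := exists_mem_notMem_of_card_lt_card h4
    unfold good at hS1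
    rw [mem_filter] at hS1 hS2
    have hS3 : |est X Q S - G X Q| < δ1 * (G X Q + X * Real.log Q) := by
      by_contra hcon
      exact hS2 ⟨hS1.1, not_lt.1 hcon⟩
    have hG : 0 ≤ G X Q := sum_nonneg fun _ _ => sq_nonneg _
    have h5 : |G X Q - X * Real.log Q| ≤ |G X Q - est X Q S| + |est X Q S - X * Real.log Q| := abs_sub_le _ _ _
    rw [abs_sub_comm (G X Q) (est X Q S)] at h5
    have h6 : G X Q ≤ X * Real.log Q + |G X Q - X * Real.log Q| := by
      have := le_abs_self (G X Q - X * Real.log Q)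
      linarith
    have h7 : |G X Q - X * Real.log Q| ≤ δ1 * (X * Real.log Q) +
        δ1 * (2 * (X * Real.log Q) + |G X Q - X * Real.log Q|) := by
      have : δ1 * (G X Q + X * Real.log Q) ≤ δ1 * (2 * (X * Real.log Q) + |G X Q - X * Real.log Q|) :=
        mul_le_mul_of_nonneg_left (by linarith) hδ0.le
      linarith [hS1.2]
    have h8 : 0 ≤ |G X Q - X * Real.log Q| := abs_nonneg _
    have h9 : 8 * δ1 * (X * Real.log Q) ≤ δ * (X * Real.log Q) := by gcongr
    nlinarith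
  exact ⟨⟨fun h => h32 (h13 h), h21⟩, ⟨h13, fun h => h21 (h32 h)⟩⟩

end Pool.Agent.Results.MP_5d318d_nt.FewClassesSuffice
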