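import Pool.Agent.Q253.HV.AllF

/-!
# GRH is equivalent to the order of magnitude in Hooley's conjecture, on average

`G(x, q)` is the variance of the primes in the reduced residue classes modulo `q`, and `V q a b` is
`(1/log² q) ∫ G(x, q) dx/x²` over `q^a ≤ x ≤ q^b`; if `G(x, q)` is of the order of magnitude `x log q` then `V q 1 b` is
of the order of magnitude `b - 1`.
-/

set_option autoImplicit false

open MeasureTheory Set

namespace Pool.Agent.Results.MP_5d318d_nt.GRHIffOrderOfMagnitude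

/-- `ψ(x; q, a)`, the sum of `Λ(n)` over `n ≤ x`, `n ≡ a mod q`, for `0 ≤ a < q` -/
noncomputable def psiAP (x : ℝ) (q a : ℕ) : ℝ :=
  ∑ n ∈ (Finset.Icc 1 ⌊x⌋₊).filter (fun n => n % q = a), ArithmeticFunction.vonMangoldt n

/-- the variance `G(x, q)` of the problem -/
noncomputable def G (x : ℝ) (q : ℕ) : ℝ :=
  ∑ a ∈ (Finset.range q).filter (fun a => Nat.Coprime a q), (psiAP x q a - x / (Nat.totient q : ℝ)) ^ 2

/-- `(1/log² q) ∫ G(x, q) dx/x²` over `q^a ≤ x ≤ q^b` -/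
noncomputable def V (q : ℕ) (a b : ℝ) : ℝ :=
  (∫ x in ((q : ℝ) ^ a)..((q : ℝ) ^ b), G x q / x ^ 2) / Real.log q ^ 2

/-- GRH for the characters modulo the elements of `Q`: the zeros of their `L`-functions with `0 < Re s < 1` have real
part `1/2` -/
def GRH (Q : Set ℕ) : Prop := ∀ (q : ℕ) [NeZero q], q ∈ Q → ∀ χ : DirichletCharacter ℂ q, ∀ s : ℂ,
  DirichletCharacter.LFunction χ s = 0 → 0 < s.re → s.re < 1 → s.re = 1 / 2

/-- each positive `r` in the set has, up to a fixed power, multiples in the set of every size -/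
def Rich (Q : Set ℕ) : Prop := ∀ r ∈ Q, 0 < r → ∃ A y0 : ℝ, ∀ y : ℝ, y0 ≤ y →
  ∃ q ∈ Q, r ∣ q ∧ y ≤ (q : ℝ) ∧ (q : ℝ) ≤ y ^ A

/-- **GRH and the order of magnitude of Hooley's variance.** There are absolute constants `κ > 0`, `C` and `b0` such that
(1) for every rich set `Q` of moduli (all moduli, for example) these are equivalent: GRH for the characters modulo the
elements of `Q`; for each `b` the numbers `V q 1 b`, `q` in `Q` large, are bounded; for each `b ≥ b0`,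
`κ b ≤ V q 1 b ≤ C b` for all large `q` in `Q`. (2) Under GRH for the characters modulo the elements of `Q` (any set) the
lower half of Hooley's conjecture holds in the sense of Abel means. -/
theorem result :
    (∃ κ C b0 : ℝ, 0 < κ ∧ ∀ Q : Set ℕ, Rich Q →
      (GRH Q ↔ ∀ b : ℝ, 1 < b → ∃ B : ℝ, ∃ q0 : ℕ, ∀ q ∈ Q, q0 ≤ q → V q 1 b ≤ B) ∧
      (GRH Q ↔ ∀ b : ℝ, b0 ≤ b → ∃ q0 : ℕ, ∀ q ∈ Q, q0 ≤ q → κ * b ≤ V q 1 b ∧ V q 1 b ≤ C * b)) ∧
    (∀ Q : Set ℕ, GRH Q → ∀ c : ℝ, 0 < c → c ≤ 1 → ∃ q0 : ℕ, ∀ q ∈ Q, q0 ≤ q →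
      IntegrableOn (fun x => G x q / x ^ 2 * x ^ (-(2 * c / Real.log q))) (Ioi (q : ℝ)) ∧
      1 - 3 * c ≤ 2 * c / Real.log q ^ 2 * ∫ x in Ioi (q : ℝ), G x q / x ^ 2 * x ^ (-(2 * c / Real.log q))) ∧
    Rich univ ∧ (∀ p : ℕ, 2 ≤ p → Rich (range (fun k : ℕ => p ^ k))) := by
  have F := Pool.Agent.Q253.HV.facts
  refine ⟨?_, fun Q hG c hc hc1 => Pool.Agent.Q253.HV.abel F hG hc hc1, Pool.Agent.Q253.HV.rich_univ,
    Pool.Agent.Q253.HV.rich_pow⟩
  obtain ⟨C, hC⟩ := Pool.Agent.Q253.HV.bdd_of_grh2 F Pool.Agent.Q253.HV.a_TB2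
  obtain ⟨κ, b0, hκ, hlow⟩ := Pool.Agent.Q253.HV.low_of_grh F Pool.Agent.Q253.HV.a_TB2
  refine ⟨κ, C, max b0 2, hκ, fun Q hR => ⟨⟨fun hG b hb => ?_,
    fun hB => Pool.Agent.Q253.HV.grh_of_bdd F hR hB⟩, fun hG b hb => ?_, fun hB => ?_⟩⟩
  · obtain ⟨q0, h0⟩ := hC Q hG b hb
    exact ⟨C * b, q0, h0⟩
  · have hb2 : 2 ≤ b := (le_max_right _ _).trans hb
    obtain ⟨q0, h0⟩ := hC Q hG b (by linarith)
    obtain ⟨q1, h1⟩ := hlow Q hG b ((le_max_left _ _).trans hb)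
    exact ⟨max q0 q1, fun q hq hq0 => ⟨h1 q hq ((le_max_right _ _).trans hq0), h0 q hq ((le_max_left _ _).trans hq0)⟩⟩
  · refine Pool.Agent.Q253.HV.grh_of_bdd F hR fun b hb => ?_
    obtain ⟨q0, h0⟩ := hB (max b (max b0 2)) (le_max_right _ _)
    refine ⟨C * max b (max b0 2), q0 + 2, fun q hq hq0 => ?_⟩
    exact (Pool.Agent.Q253.HV.V_mono (by omega) hb.le (le_max_left _ _)).trans (h0 q hq (by omega)).2

end Pool.Agent.Results.MP_5d318d_nt.GRHIffOrderOfMagnitude
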