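import Pool.Agent.Q145.CG.Cls

set_option autoImplicit false
set_option maxHeartbeats 4000000

/-!
# The variance and the normal law for the primes in the reduced classes, for random samples

Hooley's conjecture is an asymptotic for the variance of the primes over the reduced classes
modulo `Q`.  We prove such an asymptotic, together with the normal law, for random samples of the
progressions and for almost all moduli `d` up to a power less than `x^(1/2)`: if `s_1, ..., s_K` is
a random sequence from `[1, Y]`, `Y ≥ D^(1 + ε)`, and the expected number `μ` of the primes among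
`a + s_1 d, ..., a + s_K d` is large, then the variance of the number of the primes over the
reduced classes `a` modulo `d` is `(1 + o(1)) μ`, and its distribution over the reduced classes is
close to the normal law.
-/

namespace Pool.Agent.Results.MP_5d318d_nt.NormalLawSamples

open Finset

open scoped Classical

/-- All sequences of length `K` of integers from `[1, Y]`. -/
def Seqs (Y K : ℕ) : Finset (Fin K → ℕ) := Fintype.piFinset (fun _ : Fin K => Icc 1 Y)

/-- The reduced classes modulo `d`, represented in `[1, d]`. -/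
noncomputable def Classes (d : ℕ) : Finset ℕ := (Icc 1 d).filter (fun a => a.Coprime d)

/-- The number of the primes among `a + s_1 d, ..., a + s_K d`. -/
noncomputable def count (d : ℕ) {K : ℕ} (s : Fin K → ℕ) (a : ℕ) : ℝ :=
  ((univ.filter (fun i : Fin K => (a + s i * d).Prime)).card : ℝ)

/-- The expected number of primes in the sample, `K π(dY) / (φ(d) Y)`. -/
noncomputable def expected (d Y K : ℕ) : ℝ :=
  K * ((((Icc 1 (d * Y)).filter Nat.Prime).card : ℝ) / d.totient / Y)

/-- The standard normal distribution function. -/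
noncomputable def Phi (x : ℝ) : ℝ := (ProbabilityTheory.gaussianReal 0 1).real (Set.Iic x)

/-- The variance over the reduced classes is `μ` up to the factor `1 ± ε`, and the distribution
over the reduced classes is normal up to `ε`. -/
def Normal (ε : ℝ) (d Y K : ℕ) (s : Fin K → ℕ) : Prop :=
  |∑ a ∈ Classes d, (count d s a - expected d Y K) ^ 2 - d.totient * expected d Y K| ≤
    ε * (d.totient * expected d Y K) ∧
  ∀ x : ℝ, |(((Classes d).filter (fun a => count d s a - expected d Y K ≤
    x * Real.sqrt (expected d Y K))).card : ℝ) - Phi x * d.totient| ≤ ε * d.totient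

open Pool.Agent.Q145.CG Pool.Agent.Q145.MD

theorem count_eq {K : ℕ} (d : ℕ) (s : Fin K → ℕ) (a : ℕ) :
    count d s a = (Pool.Agent.Q145.LD.hit (fun a s => (a + s * d).Prime) s a : ℝ) := by
  unfold count Pool.Agent.Q145.LD.hit
  rw [card_filter]
  push_cast
  apply sum_congr rfl
  intro i _
  split_ifs <;> rfl

theorem expected_eq (d Y K : ℕ) : expected d Y K = K * (refv d Y / Y) := by
  unfold expected refv Pool.Agent.H442R2.KF.piN
  rfl

/-- **The variance and the normal law.**  For every `0 < ε < 1` there is `M` such that for every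
`A`, all large `D` and all `D^(1 + ε) ≤ Y ≤ exp((log D)^A)` the following holds for all but
`D / (log D)^A` of the moduli `d ∈ (D/2, D]`.  If `K ≤ (log D)^A` and the expected number `μ` of
the primes in a sample of `K` terms is at least `M`, then for all but `ε Y^K` of the sequences
`s_1, ..., s_K` from `[1, Y]` the variance of the number of the primes over the reduced classes
is `μ` up to the factor `1 ± ε`, and the distribution is normal up to `ε`. -/
theorem result (ε : ℝ) (hε : 0 < ε) (hε1 : ε < 1) : ∃ M : ℝ, 0 < M ∧ ∀ A : ℕ, ∃ D₀ : ℕ, ∀ D Y : ℕ, D₀ ≤ D →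
    (D : ℝ) ^ (1 + ε) ≤ Y → Real.log Y ≤ Real.log D ^ A →
    ∃ B ⊆ Icc 1 D, (B.card : ℝ) ≤ D / Real.log D ^ A ∧ ∀ d ∈ Icc 1 D, D < 2 * d → d ∉ B → ∀ K : ℕ,
    M ≤ expected d Y K → (K : ℝ) ≤ Real.log D ^ A →
    (((Seqs Y K).filter (fun s => ¬ Normal ε d Y K s)).card : ℝ) ≤ ε * (Y : ℝ) ^ K := by
  obtain ⟨M, hM, h⟩ := glaw_cl ε hε hε1.le
  refine ⟨M, hM, fun A => ?_⟩
  obtain ⟨D₀, h0⟩ := h A
  refine ⟨D₀, fun D Y hD hDY hlY => ?_⟩
  obtain ⟨B, hB1, hB2, hB3⟩ := h0 D Y hD hDY hlY
  refine ⟨B, hB1, hB2, fun d hd h2d hdB K hK hKA => ?_⟩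
  rw [expected_eq] at hK
  have h3 := hB3 d hd h2d hdB K hK hKA
  rw [← expected_eq] at h3 hK
  refine le_trans ?_ h3
  have hμ : 0 < expected d Y K := lt_of_lt_of_le hM hK
  have hs2 : Real.sqrt (expected d Y K) ^ 2 = expected d Y K := Real.sq_sqrt hμ.le
  have hcl : (Pool.Agent.Q145.RA.Cl d).card = d.totient := Pool.Agent.Q145.RA.card_Cl d (mem_Icc.1 hd).1
  apply Nat.cast_le.2
  apply card_le_card
  intro s hs
  rw [mem_filter] at hs ⊢
  refine ⟨hs.1, fun h4 => hs.2 ?_⟩
  obtain ⟨g1, g2⟩ := h4
  rw [hs2, hcl] at g2
  constructor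
  · have e1 : ∑ a ∈ Classes d, (count d s a - expected d Y K) ^ 2 =
        ∑ n ∈ Pool.Agent.Q145.RA.Cl d, ((Pool.Agent.Q145.LD.hit (fun a s => (a + s * d).Prime) s n : ℝ) - expected d Y K) ^ 2 := by
      apply sum_congr rfl
      intro a _
      rw [count_eq]
    rw [e1, mul_comm (d.totient : ℝ)]
    exact g2
  · intro x
    have e1 := g1 x
    rw [hcl] at e1
    have e2 : (Classes d).filter (fun a => count d s a - expected d Y K ≤ x * Real.sqrt (expected d Y K)) =
        (Pool.Agent.Q145.RA.Cl d).filter (fun n => (Pool.Agent.Q145.LD.hit (fun a s => (a + s * d).Prime) s n : ℝ) -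
          expected d Y K ≤ x * Real.sqrt (expected d Y K)) := by
      apply filter_congr
      intro a _
      rw [count_eq]
    rw [e2]
    exact e1

end Pool.Agent.Results.MP_5d318d_nt.NormalLawSamples
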