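import Pool.Agent.Q253.HV.AllF

/-!
# The upper half of Hooley's conjecture implies the whole, and GRH

`G(x, q)` is the variance of the primes in the reduced residue classes modulo `q`, and `V q a b` is
`(1/log² q) ∫ G(x, q) dx/x²` over `q^a ≤ x ≤ q^b`; Hooley's asymptotic formula `G(x, q) ∼ x log q` predicts `b - a`.
-/

set_option autoImplicit false

open MeasureTheory

namespace Pool.Agent.Results.MP_5d318d_nt.UpperHalfDecides

/-- `ψ(x; q, a)`, the sum of `Λ(n)` over `n ≤ x`, `n ≡ a mod q`, for `0 ≤ a < q` -/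
noncomputable def psiAP (x : ℝ) (q a : ℕ) : ℝ :=
  ∑ n ∈ (Finset.Icc 1 ⌊x⌋₊).filter (fun n => n % q = a), ArithmeticFunction.vonMangoldt n

/-- the variance `G(x, q)` of the problem -/
noncomputable def G (x : ℝ) (q : ℕ) : ℝ :=
  ∑ a ∈ (Finset.range q).filter (fun a => Nat.Coprime a q), (psiAP x q a - x / (Nat.totient q : ℝ)) ^ 2

/-- `(1/log² q) ∫ G(x, q) dx/x²` over `q^a ≤ x ≤ q^b` -/
noncomputable def V (q : ℕ) (a b : ℝ) : ℝ :=
  (∫ x in ((q : ℝ) ^ a)..((q : ℝ) ^ b), G x q / x ^ 2) / Real.log q ^ 2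

/-- GRH for the characters modulo the elements of `Q`: the zeros of their `L`-functions with `0 < Re s < 1` have real
part `1/2` -/
def GRH (Q : Set ℕ) : Prop := ∀ (q : ℕ) [NeZero q], q ∈ Q → ∀ χ : DirichletCharacter ℂ q, ∀ s : ℂ,
  DirichletCharacter.LFunction χ s = 0 → 0 < s.re → s.re < 1 → s.re = 1 / 2

/-- each positive `r` in the set has, up to a fixed power, multiples in the set of every size -/
def Rich (Q : Set ℕ) : Prop := ∀ r ∈ Q, 0 < r → ∃ A y0 : ℝ, ∀ y : ℝ, y0 ≤ y →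
  ∃ q ∈ Q, r ∣ q ∧ y ≤ (q : ℝ) ∧ (q : ℝ) ≤ y ^ A

/-- the upper half, in the mean over every window `q^a ≤ x ≤ q^b` -/
def Upper (Q : Set ℕ) : Prop := ∀ a b ε : ℝ, 1 ≤ a → a < b → 0 < ε →
  ∃ q0 : ℕ, ∀ q ∈ Q, q0 ≤ q → V q a b ≤ b - a + ε

/-- the asymptotic formula, in the mean over every window `q^a ≤ x ≤ q^b` -/
def Asymp (Q : Set ℕ) : Prop := ∀ a b ε : ℝ, 1 ≤ a → a < b → 0 < ε →
  ∃ q0 : ℕ, ∀ q ∈ Q, q0 ≤ q → |V q a b - (b - a)| ≤ ε

/-- **The upper half of Hooley's conjecture decides.** (1) For all moduli, and for every rich set `Q` of moduli, the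
upper bounds in the mean are equivalent to the asymptotic formulas in the mean, and imply GRH. (2) For every set `Q` of
moduli the equivalence follows from GRH for the characters modulo the elements of `Q`. (3) The pointwise upper half
implies the asymptotic formula for almost all `x`. -/
theorem result :
    (∀ Q : Set ℕ, Rich Q → (Upper Q ↔ Asymp Q) ∧ (Upper Q → GRH Q)) ∧
    (∀ Q : Set ℕ, GRH Q → (Upper Q ↔ Asymp Q)) ∧
    (∀ Q : Set ℕ, Rich Q ∨ GRH Q →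
      (∀ b ε : ℝ, 1 < b → 0 < ε → ∃ q0 : ℕ, ∀ q ∈ Q, q0 ≤ q →
        ∀ x : ℝ, (q : ℝ) ≤ x → x ≤ (q : ℝ) ^ b → G x q ≤ (1 + ε) * (x * Real.log q)) →
      ∀ b ε : ℝ, 1 < b → 0 < ε → ∃ q0 : ℕ, ∀ q ∈ Q, q0 ≤ q →
        volume {α : ℝ | 1 ≤ α ∧ α ≤ b ∧ ε * ((q : ℝ) ^ α * Real.log q) <
          |G ((q : ℝ) ^ α) q - (q : ℝ) ^ α * Real.log q|} ≤ ENNReal.ofReal ε) ∧
    Rich Set.univ ∧ (∀ p : ℕ, 2 ≤ p → Rich (Set.range (fun k : ℕ => p ^ k))) := by
  have F := Pool.Agent.Q253.HV.facts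
  have key : ∀ Q : Set ℕ, Rich Q → Upper Q → GRH Q := fun Q hR hU =>
    Pool.Agent.Q253.HV.grh_of_bdd F hR (Pool.Agent.Q253.HV.bdd_of_upper hU)
  have key3 : ∀ Q : Set ℕ, GRH Q → Upper Q → Asymp Q := fun Q hG hU =>
    Pool.Agent.Q253.HV.asymp_of_upper F hG hU
  have key4 : ∀ Q : Set ℕ, Asymp Q → Upper Q := fun Q h => Pool.Agent.Q253.HV.upper_of_asymp h
  refine ⟨fun Q hR => ⟨⟨fun hU => key3 Q (key Q hR hU) hU, key4 Q⟩, key Q hR⟩,
    fun Q hG => ⟨key3 Q hG, key4 Q⟩,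
    fun Q hQ hP b ε hb hε => ?_, Pool.Agent.Q253.HV.rich_univ, Pool.Agent.Q253.HV.rich_pow⟩
  have hU : Upper Q := Pool.Agent.Q253.HV.upper_of_pw hP
  have hG : GRH Q := hQ.elim (fun hR => key Q hR hU) id
  exact Pool.Agent.Q253.HV.almost_all hP (key3 Q hG hU) hb hε

end Pool.Agent.Results.MP_5d318d_nt.UpperHalfDecides
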